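import Mathlib
import Pool.Agent.Lib_helper42.TwoCentral4

set_option autoImplicit false

namespace Pool.Agent.Results.MP_970c5e_al.CentralInvolutions

universe u

/-- `Ω₁(G)`: the subgroup generated by all elements `x` with `x ^ 2 = 1`. -/
def omegaOne (G : Type u) [Group G] : Subgroup G := Subgroup.closure {x : G | x ^ 2 = 1}

/-- `G²`: the subgroup generated by all squares. -/
def squares (G : Type u) [Group G] : Subgroup G := Subgroup.closure {x : G | ∃ g : G, x = g ^ 2}

/-- The subgroup generated by the squares is normal. -/
instance squares_normal (G : Type u) [Group G] : (squares G).Normal := by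
  constructor
  intro n hn g
  induction hn using Subgroup.closure_induction with
  | mem x hx =>
    obtain ⟨y, rfl⟩ := hx
    refine Subgroup.subset_closure ⟨g * y * g⁻¹, ?_⟩
    simp [pow_two, mul_assoc]
  | one => simp
  | mul x y _ _ hx hy =>
    have h := (squares G).mul_mem hx hy
    have h2 : g * (x * y) * g⁻¹ = g * x * g⁻¹ * (g * y * g⁻¹) := by group
    rw [h2]; exact h
  | inv x _ hx =>
    have h := (squares G).inv_mem hx
    have h2 : g * x⁻¹ * g⁻¹ = (g * x * g⁻¹)⁻¹ := by group
    rw [h2]; exact h

/-- A finite group with minimal number of generators `r` has at least `2 ^ r` elements. -/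
theorem two_pow_rank_le (E : Type u) [Group E] [Finite E] : 2 ^ Group.rank E ≤ Nat.card E := by
  classical
  obtain ⟨S, hcard, hgen⟩ := Group.rank_spec E
  have key : ∀ T : Finset E, T ⊆ S →
      2 ^ T.card ≤ Nat.card (Subgroup.closure (T : Set E)) := by
    intro T
    induction T using Finset.induction_on with
    | empty =>
      intro _
      rw [Finset.card_empty, pow_zero]
      exact Nat.card_pos
    | insert a T ha ih =>
      intro hT
      have hTS : T ⊆ S := (Finset.subset_insert a T).trans hT
      have haS : a ∈ S := hT (Finset.mem_insert_self a T)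
      have hna : a ∉ Subgroup.closure (T : Set E) := by
        intro h
        have hTe : (T : Set E) ⊆ (S.erase a : Finset E) := by
          intro t ht
          have ht' : t ∈ T := ht
          refine Finset.mem_coe.mpr (Finset.mem_erase.mpr ⟨?_, hTS ht'⟩)
          rintro rfl
          exact ha ht'
        have ha2 : a ∈ Subgroup.closure ((S.erase a : Finset E) : Set E) :=
          Subgroup.closure_mono hTe h
        have htop : Subgroup.closure ((S.erase a : Finset E) : Set E) = ⊤ := by
          rw [eq_top_iff, ← hgen, Subgroup.closure_le]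
          intro s hs
          by_cases hsa : s = a
          · rw [hsa]; exact ha2
          · exact Subgroup.subset_closure (Finset.mem_coe.mpr (Finset.mem_erase.mpr ⟨hsa, hs⟩))
        have h1 := Group.rank_le htop
        rw [Finset.card_erase_of_mem haS, hcard] at h1
        have h2 : 0 < S.card := Finset.card_pos.mpr ⟨a, haS⟩
        omega
      have hle : Subgroup.closure (T : Set E) ≤ Subgroup.closure ((insert a T : Finset E) : Set E) :=
        Subgroup.closure_mono (Finset.coe_subset.mpr (Finset.subset_insert a T))
      have hdvd := Subgroup.card_dvd_of_le hle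
      obtain ⟨c, hc⟩ := hdvd
      have hpos : 0 < Nat.card (Subgroup.closure (T : Set E)) := Nat.card_pos
      have hpos2 : 0 < Nat.card (Subgroup.closure ((insert a T : Finset E) : Set E)) :=
        Nat.card_pos
      have hc0 : c ≠ 0 := by
        rintro rfl
        rw [mul_zero] at hc
        omega
      have hc1 : c ≠ 1 := by
        rintro rfl
        rw [mul_one] at hc
        have heq := Subgroup.eq_of_le_of_card_ge hle (le_of_eq hc)
        apply hna
        rw [heq]
        exact Subgroup.subset_closure (Finset.mem_coe.mpr (Finset.mem_insert_self a T))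
      have hc2 : 2 ≤ c := by omega
      rw [Finset.card_insert_of_notMem ha, pow_succ, hc]
      exact Nat.mul_le_mul (ih hTS) hc2
  have h := key S (Finset.Subset.refl S)
  rw [hgen, hcard] at h
  simpa using h

/-- If all involutions of a finite `2`-group `G` are central, then
`rank (G/G²) ≤ 2 rank (Z(G))`, ranks being minimal numbers of generators. -/
theorem result (G : Type u) [Group G] [Finite G] (hG : IsPGroup 2 G)
    (h : omegaOne G ≤ Subgroup.center G) :
    Group.rank (G ⧸ squares G) ≤ 2 * Group.rank (Subgroup.center G) := by
  have h2 : ∀ x : G, x ^ 2 = 1 → x ∈ Subgroup.center G := fun x hx =>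
    h (Subgroup.subset_closure hx)
  have hsq : squares G = Pool.Agent.Lib_helper42.Sq G := by
    unfold squares Pool.Agent.Lib_helper42.Sq
    congr 1
    ext x
    exact ⟨fun ⟨g, hg⟩ => ⟨g, hg.symm⟩, fun ⟨g, hg⟩ => ⟨g, hg.symm⟩⟩
  have h1 := Pool.Agent.Lib_helper42.index_Sq_le (Nat.card G) G rfl hG h2
  have h3 : Nat.card {g : G // g ^ 2 = 1} =
      Nat.card {z : Subgroup.center G // z ^ 2 = 1} := by
    refine Nat.card_congr ⟨fun g => ⟨⟨g, h2 g g.2⟩, Subtype.ext g.2⟩,
      fun z => ⟨((z : Subgroup.center G) : G), ?_⟩, fun g => rfl, fun z => rfl⟩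
    exact congrArg Subtype.val z.2
  have h4 : Nat.card {z : Subgroup.center G // z ^ 2 = 1} ≤
      2 ^ (Group.rank (Subgroup.center G)) := by
    let cg : CommGroup (Subgroup.center G) :=
      { (inferInstance : Group (Subgroup.center G)) with
        mul_comm := fun a b => Subtype.ext (Subgroup.mem_center_iff.mp b.2 a) }
    exact Pool.Agent.Lib_helper42.card_two_torsion_le (Subgroup.center G)
  rw [h3] at h1
  have h5 : (squares G).index ≤ 2 ^ (2 * Group.rank (Subgroup.center G)) := by
    rw [hsq]
    calc (Pool.Agent.Lib_helper42.Sq G).index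
        ≤ (Nat.card {z : Subgroup.center G // z ^ 2 = 1}) ^ 2 := h1
      _ ≤ (2 ^ (Group.rank (Subgroup.center G))) ^ 2 := Nat.pow_le_pow_left h4 2
      _ = 2 ^ (2 * Group.rank (Subgroup.center G)) := by rw [← pow_mul, mul_comm]
  have h6 : 2 ^ Group.rank (G ⧸ squares G) ≤ (squares G).index := two_pow_rank_le _
  exact (Nat.pow_le_pow_iff_right (by norm_num)).mp (h6.trans h5)

end Pool.Agent.Results.MP_970c5e_al.CentralInvolutions
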